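import Pool.Agent.Lib.MP_c831ba_nt.MMain

/-!
For almost all positive integers `m` the set `S(m ^ d)` consists of `m ^ d` only.
-/

namespace Pool.Agent.Results.MP_c831ba_nt.AlmostAll

theorem result (d : ℕ) (hd : 1 ≤ d) : ∃ x₀ : ℝ, ∀ x : ℝ, x₀ ≤ x →
    (({m : ℕ | 1 ≤ m ∧ (m : ℝ) ≤ x ∧ ∃ n : ℕ, 1 ≤ n ∧ n ≠ m ^ d ∧
        n.primeFactors = m.primeFactors ∧
        (n + 1).primeFactors = (m ^ d + 1).primeFactors}.ncard : ℕ) : ℝ) ≤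
      x * Real.exp (-(Real.log x) ^ ((1 : ℝ) / 4)) :=
  Pool.Agent.Lib.MP_c831ba_nt.mmain d hd

end Pool.Agent.Results.MP_c831ba_nt.AlmostAll
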