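import Pool.Agent.Lib.MP_c831ba_nt.OP.Main

/-!
# The number of squares in `S(a)`
-/

namespace Pool.Agent.Results.MP_c831ba_nt.NumberOfSquares

/-- Let `P` be the set of the odd primes which divide `a + 1`, let `R` be the product of the odd primes
which divide `a`, and write every `p` in `P` as the norm of a Gaussian integer `π p` with even imaginary
part. Let `H` be the subgroup of the units modulo `R` of the Gaussian integers which is generated by the
quotients `g p` of `π p` by its conjugate. If `a` is odd, `S(a)` contains at most `2 ^ |P| / [H : H ^ 2]`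
squares, and if `a` is even, it contains at most `2 ^ |P| / [H : H ^ 2] - 1` squares. -/
theorem result (a : ℕ) (ha : 0 < a) (P : Finset ℕ) (hP : P = (a + 1).primeFactors.erase 2)
    (R : ℕ) (hR : R = ∏ q ∈ a.primeFactors.erase 2, q)
    (π : ℕ → GaussianInt) (hπ : ∀ p ∈ P, (π p).norm = p ∧ Even (π p).im)
    (g : ℕ → (GaussianInt ⧸ Ideal.span {(R : GaussianInt)})ˣ)
    (hg : ∀ p ∈ P, (g p : GaussianInt ⧸ Ideal.span {(R : GaussianInt)}) *
      Ideal.Quotient.mk _ (star (π p)) = Ideal.Quotient.mk _ (π p))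
    (H : Subgroup (GaussianInt ⧸ Ideal.span {(R : GaussianInt)})ˣ)
    (hH : H = Subgroup.closure (g '' P)) :
    (Odd a → {x : ℕ | 0 < x ∧ IsSquare x ∧ x.primeFactors = a.primeFactors ∧
      (x + 1).primeFactors = (a + 1).primeFactors}.encard *
        ((powMonoidHom 2 : H →* H).range.index : ℕ∞) ≤ 2 ^ P.card) ∧
    (Even a → ({x : ℕ | 0 < x ∧ IsSquare x ∧ x.primeFactors = a.primeFactors ∧
      (x + 1).primeFactors = (a + 1).primeFactors}.encard + 1) *
        ((powMonoidHom 2 : H →* H).range.index : ℕ∞) ≤ 2 ^ P.card) := by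
  obtain ⟨K, hcard, hK⟩ := Pool.Agent.Lib.MP_c831ba_nt.OP.count P g H hH
  have hφR : Ideal.Quotient.mk (Ideal.span {(R : GaussianInt)})
      ((∏ q ∈ a.primeFactors.erase 2, q : ℕ) : GaussianInt) = 0 := by
    rw [← hR]
    exact Ideal.Quotient.eq_zero_iff_mem.2 (Ideal.mem_span_singleton_self _)
  have h1 : ((Nat.card K : ℕ) : ℕ∞) * ((powMonoidHom 2 : H →* H).range.index : ℕ∞) =
      2 ^ P.card := by
    rw [← Nat.cast_mul, hcard]
    push_cast
    rfl
  rw [← h1]
  refine ⟨fun h => ?_, fun h => ?_⟩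
  · exact mul_le_mul_left (Pool.Agent.Lib.MP_c831ba_nt.OP.odd_main
      (Ideal.Quotient.mk (Ideal.span {(R : GaussianInt)})) a P hP hφR π (fun p hp => (hπ p hp).1)
      (fun p hp => (hπ p hp).2) g hg K hK h) _
  · exact mul_le_mul_left (Pool.Agent.Lib.MP_c831ba_nt.OP.even_main
      (Ideal.Quotient.mk (Ideal.span {(R : GaussianInt)})) a P hP hφR π (fun p hp => (hπ p hp).1)
      (fun p hp => (hπ p hp).2) g hg K hK h ha) _

end Pool.Agent.Results.MP_c831ba_nt.NumberOfSquares
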