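import Pool.Agent.Lib.MP_c831ba_nt.PBMain

/-!
# Partners of polynomial size: a power saving

For `d ≥ 1` and `A ≥ 1` all but `x^(1 - 1/(2A+6))` of the `m ≤ x` have no partner `n ≤ x^A`,
that is no `n ≠ m` such that `n^d`, `m^d` have the same primes and `n^d + 1`, `m^d + 1` have the
same primes.
-/

namespace Pool.Agent.Results.MP_c831ba_nt.PowerBound

theorem result (d : ℕ) (hd : 1 ≤ d) (A : ℝ) (hA : 1 ≤ A) :
    ∃ x₀ : ℝ, ∀ x : ℝ, x₀ ≤ x →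
      (({m : ℕ | 1 ≤ m ∧ (m : ℝ) ≤ x ∧ ∃ n : ℕ, 1 ≤ n ∧ (n : ℝ) ≤ x ^ A ∧ n ≠ m ∧
        n.primeFactors = m.primeFactors ∧
        (n ^ d + 1).primeFactors = (m ^ d + 1).primeFactors}).ncard : ℝ) ≤
      x ^ (1 - 1 / (2 * A + 6)) :=
  Pool.Agent.Lib.MP_c831ba_nt.powerBound d hd A hA

end Pool.Agent.Results.MP_c831ba_nt.PowerBound
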